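import Mathlib
import Pool.Agent.X26.MC.Chen

/-!
# Several triples `p, p - d', p - d`, with almost primes: the same patterns for all of them

Let `(a_i, b_i)`, `i ≤ M`, be pairs of even numbers `2 ≤ a_i < b_i ≤ x` with `𝔖({0, a_i, b_i}) ≠ 0`, for instance
`b_i ≤ log ^ 2 x` as in the problem; they may change with `x`. We count the primes `p` for which one chosen of `p - a_i`
and `p - b_i` is a product of at most two primes and the other is an almost prime. For all `M` windows of length
`X ≥ θ x` in `[1, x]`, a positive proportion of the vectors `d ∈ [1, D] ^ m`, `D` between a power of `log x` and `X`,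
serves for ALL `i`, and for ALL `F ⊆ {0, …, k - 1} ^ m` containing `0`, at once: the number of the `p` in the `i`-th
window for which all the `p + ∑ f_j d_j`, `f ∈ F`, are such primes of the window has the order of magnitude which the
Hardy-Littlewood conjecture predicts for the `3 |F|` forms `p + t + ∑ f_j d_j`, `t ∈ {0, -a_i, -b_i}`, uniformly in the
`a_i` and `b_i`.
-/

set_option autoImplicit false

namespace Pool.Agent.Results.MP_1039f5_nt.CommonPatterns

open Finset

/-- The number of the residue classes modulo `q` occupied by `T`. -/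
def nu (T : Finset ℤ) (q : ℕ) : ℕ := (T.image (fun t : ℤ => t % q)).card

/-- The local factor `(1 - ν(q) / q) (1 - 1 / q) ^ (-|T|)`. -/
noncomputable def loc (T : Finset ℤ) (q : ℕ) : ℝ := (1 - (nu T q : ℝ) / q) / (1 - 1 / (q : ℝ)) ^ T.card

/-- The singular series, the product of the local factors over all primes. -/
noncomputable def Sing (T : Finset ℤ) : ℝ := ∏' q : Nat.Primes, loc T q

/-- `m ≠ 0` is up to the sign a product of at most `j` primes, all of them larger than `w`. -/
def Almost (j : ℕ) (w : ℝ) (m : ℤ) : Prop :=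
  m ≠ 0 ∧ m.natAbs.primeFactorsList.length ≤ j ∧ ∀ q : ℕ, q.Prime → (q : ℤ) ∣ m → w < q

open Classical in
/-- The primes `p` in `(y, y + X]` for which `p + h` is a product of at most two primes, both larger than
`x ^ (1/9)`, and all `p + t`, `t ∈ T`, are products of at most `j` primes larger than `x ^ (1/j)`. -/
noncomputable def Chen (j x : ℕ) (T : Finset ℤ) (h : ℤ) (y X : ℕ) : Finset ℕ :=
  (Ioc y (y + X)).filter (fun n : ℕ => n.Prime ∧ Almost 2 ((x : ℝ) ^ (1 / 9 : ℝ)) (n + h) ∧
    ∀ t ∈ T, Almost j ((x : ℝ) ^ (1 / (j : ℝ))) (n + t))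

/-- The set of the integers `t + ∑ f_i d_i`, `t ∈ T`, `f ∈ F`. -/
def sumSet {m : ℕ} (T : Finset ℤ) (d : Fin m → ℕ) (F : Finset (Fin m → ℕ)) : Finset ℤ :=
  (T ×ˢ F).image (fun p : ℤ × (Fin m → ℕ) => p.1 + ((∑ i, p.2 i * d i : ℕ) : ℤ))

/-- the shifts of the triple `p, p - a, p - b` -/
def Tri (a b : ℕ) : Finset ℤ := {0, -(a : ℤ), -(b : ℤ)}

/-- For every `M` there is `j ≥ 1` such that for all `m` and `k` there are `c > 0` and `B` with: for every `θ > 0`, all
large `x`, all even numbers `0 < a_i < b_i ≤ x` such that `{0, -a_i, -b_i}` misses a class modulo `3`, all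
`h_i ∈ {-a_i, -b_i}` and all windows `(y_i, y_i + X] ⊆ [1, x]` with `X ≥ θ x`, and every `D` from `log ^ B x` to `X`, at
least `c D ^ m` vectors `d` with entries in `[1, D]` have the following property. For all sets `F` of vectors with
entries in `{0, ..., k - 1}` which contain the vector `0` and for all `i`, the set
`T' = {0, -a_i, -b_i} + {∑ f_l d_l : f ∈ F}` consists of `3 |F|` integers and misses a class modulo every prime, and for
at least `c 𝔖(T') X / log ^ (3 |F|) x` elements `p` of `Chen j x (Tri a_i b_i) h_i y_i X` all the `p + ∑ f_l d_l`,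
`f ∈ F`, are elements of `Chen j x (Tri a_i b_i) h_i y_i X`. -/
theorem result (M : ℕ) : ∃ j : ℕ, 1 ≤ j ∧ ∀ m k : ℕ, ∃ c : ℝ, 0 < c ∧ ∃ B : ℕ, ∀ θ : ℝ, 0 < θ →
    ∃ x₀ : ℕ, ∀ x : ℕ, x₀ ≤ x → ∀ (a b : Fin M → ℕ) (h : Fin M → ℤ),
      (∀ i, Even (a i) ∧ Even (b i) ∧ 0 < a i ∧ a i < b i ∧ b i ≤ x ∧ nu (Tri (a i) (b i)) 3 < 3) →
      (∀ i, h i = -(a i : ℤ) ∨ h i = -(b i : ℤ)) → ∀ (y : Fin M → ℕ) (X D : ℕ), (∀ i, y i + X ≤ x) →
      θ * x ≤ X → X ≤ x → Real.log x ^ B ≤ D → D ≤ X →
      ∃ G : Finset (Fin m → ℕ), (∀ d ∈ G, ∀ i, 1 ≤ d i ∧ d i ≤ D) ∧ c * (D : ℝ) ^ m ≤ G.card ∧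
        ∀ d ∈ G, ∀ F : Finset (Fin m → ℕ), (∀ f ∈ F, ∀ i, f i < k) → (fun _ => 0) ∈ F → ∀ i,
          (sumSet (Tri (a i) (b i)) d F).card = 3 * F.card ∧
          (∀ q : ℕ, q.Prime → nu (sumSet (Tri (a i) (b i)) d F) q < q) ∧
          c * (Sing (sumSet (Tri (a i) (b i)) d F) * (X / Real.log x ^ (3 * F.card))) ≤
            (((Chen j x (Tri (a i) (b i)) (h i) (y i) X).filter
              (fun n => ∀ f ∈ F, n + ∑ l, f l * d l ∈ Chen j x (Tri (a i) (b i)) (h i) (y i) X)).card : ℝ) := by
  classical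
  obtain ⟨J, hJ, h0⟩ := Pool.Agent.X26.MC.chenM M (fun _ => 3)
  refine ⟨J, hJ, fun m k => ?_⟩
  obtain ⟨c, hc, B, h1⟩ := h0 m k
  refine ⟨c, hc, B, fun θ hθ => ?_⟩
  obtain ⟨x₀, h2⟩ := h1 θ hθ
  refine ⟨x₀, fun x hx a b h hab hh y X D hyX hθX hXx hD hDX => ?_⟩
  have htup : ∀ i, Pool.Agent.Y843.AC.HL.Tup 3 x (Tri (a i) (b i)) := by
    intro i
    obtain ⟨ha, hb, ha0, hlt, hbx, h3⟩ := hab i
    obtain ⟨a', ha'⟩ := ha
    obtain ⟨b', hb'⟩ := hb
    have hc3 : (Tri (a i) (b i)).card = 3 := by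
      unfold Tri
      rw [card_eq_three]
      exact ⟨0, -(a i : ℤ), -(b i : ℤ), by omega, by omega, by omega, rfl⟩
    refine ⟨hc3, ?_, ?_⟩
    · intro q hq
      show nu (Tri (a i) (b i)) q < q
      rcases Nat.lt_or_ge q 4 with h4 | h4
      · have := hq.two_le
        interval_cases q
        · have h5 : (Tri (a i) (b i)).image (fun t : ℤ => t % ((2 : ℕ) : ℤ)) ⊆ {0} := by
            intro t ht
            unfold Tri at ht
            rw [mem_image] at ht
            obtain ⟨s, hs, rfl⟩ := ht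
            rw [mem_insert, mem_insert, mem_singleton] at hs
            rw [mem_singleton]
            rcases hs with rfl | rfl | rfl
            · norm_num
            · push_cast; omega
            · push_cast; omega
          have h6 : nu (Tri (a i) (b i)) 2 ≤ 1 := by
            unfold nu
            calc _ ≤ #({0} : Finset ℤ) := card_le_card h5
              _ = 1 := card_singleton _
          omega
        · exact h3
      · have h5 : nu (Tri (a i) (b i)) q ≤ (Tri (a i) (b i)).card := card_image_le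
        omega
    · intro t ht
      unfold Tri at ht
      rw [mem_insert, mem_insert, mem_singleton] at ht
      rcases ht with rfl | rfl | rfl
      · simp
      · rw [abs_neg, Nat.abs_cast]; exact_mod_cast (hlt.le.trans hbx)
      · rw [abs_neg, Nat.abs_cast]; exact_mod_cast hbx
  obtain ⟨G, g1, g2, g3⟩ := h2 x hx (fun i => Tri (a i) (b i)) htup (fun i => by simp [Tri]) h
    (fun i => by rcases hh i with h3 | h3 <;> rw [h3] <;> simp [Tri]) (fun i => by
      obtain ⟨-, -, ha0, hlt, -, -⟩ := hab i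
      rcases hh i with h3 | h3 <;> rw [h3] <;> omega) y X D hyX hXx hθX hD hDX
  refine ⟨G, ?_, g2, fun d hd F hF hF0 i => ?_⟩
  · intro d hd j
    have := g1 hd
    rw [Fintype.mem_piFinset] at this
    exact mem_Icc.1 (this j)
  obtain ⟨k1, k2, k3⟩ := g3 d hd F hF hF0 i
  have e : Pool.Agent.Y843.AC.HL.gg (Pool.Agent.X26.GP.TF (Tri (a i) (b i)) d F) x =
      Sing (sumSet (Tri (a i) (b i)) d F) /
        Real.log x ^ (Pool.Agent.X26.GP.TF (Tri (a i) (b i)) d F).card := rfl
  rw [e, k1] at k3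
  refine ⟨k1, k2, ?_⟩
  have e2 : c * (Sing (sumSet (Tri (a i) (b i)) d F) * (X / Real.log x ^ (3 * F.card))) =
      c * (X * (Sing (sumSet (Tri (a i) (b i)) d F) / Real.log x ^ (3 * F.card))) := by ring
  rw [e2]
  exact k3

end Pool.Agent.Results.MP_1039f5_nt.CommonPatterns
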