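import Mathlib
import Pool.Agent.X26.MC.Tup
import Pool.Agent.Results.MP_1039f5_nt.SharpConstantManyPairs
import Pool.Agent.Results.MP_e87c7d_nt.ProgressionsOfPrimeTuples

/-!
# Prime triples `p - b_i, p - a_i, p`: any `M` good pairs of differences have common patterns

Let `η > 0`. We call a pair of even numbers `2 ≤ a < b ≤ x` good if `R(x; a, b) ≥ η`. For `η < 1` a positive proportion of
the pairs up to `log ^ 2 x` is good. We show that for ANY `M` good pairs `(a_1, b_1), …, (a_M, b_M)` a positive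
proportion of the vectors `d ∈ [1, D] ^ m`, `D` between a power of `log x` and `x`, serves for ALL `i` and ALL
`F ⊆ {0, …, k - 1} ^ m` containing `0` at once: the number of the primes `p ≤ x` for which all the `p + ∑ f_j d_j`,
`f ∈ F`, are primes `≤ x` and all the `p - a_i + ∑ f_j d_j` and `p - b_i + ∑ f_j d_j` are primes has the order which the
Hardy-Littlewood conjecture predicts for the `3 |F|` forms.
-/

set_option autoImplicit false

namespace Pool.Agent.Results.MP_1039f5_nt.CommonPrimePatterns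

open Finset
open Pool.Agent.Results.MP_1039f5_nt.SharpConstantManyPairs (S pi3)

/-- The number of the residue classes modulo `q` occupied by `T`. -/
def nu (T : Finset ℤ) (q : ℕ) : ℕ := (T.image (fun t : ℤ => t % q)).card

/-- The local factor `(1 - ν(q) / q) (1 - 1 / q) ^ (-|T|)`. -/
noncomputable def loc (T : Finset ℤ) (q : ℕ) : ℝ := (1 - (nu T q : ℝ) / q) / (1 - 1 / (q : ℝ)) ^ T.card

/-- The singular series, the product of the local factors over all primes. -/
noncomputable def Sing (T : Finset ℤ) : ℝ := ∏' q : Nat.Primes, loc T q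

/-- the primes `p ≤ x` with `p - b` and `p - a` prime; their number is `π₃(x, a, b)` -/
def Triples (x a b : ℕ) : Finset ℕ := (range (x + 1)).filter (fun p => p.Prime ∧ (p - b).Prime ∧ (p - a).Prime)

/-- The set of the integers `t + ∑ f_i d_i`, `t ∈ T`, `f ∈ F`. -/
def sumSet {m : ℕ} (T : Finset ℤ) (d : Fin m → ℕ) (F : Finset (Fin m → ℕ)) : Finset ℤ :=
  (T ×ˢ F).image (fun p : ℤ × (Fin m → ℕ) => p.1 + ((∑ i, p.2 i * d i : ℕ) : ℤ))

/-- the shifts of the triple `p, p - a, p - b` -/
def Tri (a b : ℕ) : Finset ℤ := {0, -(a : ℤ), -(b : ℤ)}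

/-- `2 ≤ a < b ≤ x` are even, the singular series is positive and `π₃(x, a, b) ≥ η 𝔖 x / log ^ 3 x`, that is
`R(x; a, b) ≥ η` -/
def Good (η : ℝ) (x a b : ℕ) : Prop := Even a ∧ Even b ∧ 2 ≤ a ∧ a < b ∧ b ≤ x ∧ 0 < S a b ∧
  η * (S a b * (x / Real.log x ^ 3)) ≤ (pi3 x a b : ℝ)

theorem Triples_card (x a b : ℕ) : (Triples x a b).card = pi3 x a b := by
  unfold Triples pi3
  rw [Nat.floor_natCast]

theorem nu_tri (a b q : ℕ) : nu (Tri a b) q = (({0, a, b} : Finset ℕ).image (fun n => n % q)).card := by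
  have h1 : nu (({0, a, b} : Finset ℕ).map Nat.castEmbedding) q = Pool.Agent.H387R2.Uni.nuT {0, a, b} q :=
    Pool.Agent.Results.MP_e87c7d_nt.ProgressionsOfPrimeTuples.nu_nat {0, a, b}
  have h2 : (({0, a, b} : Finset ℕ).image (fun n => n % q)).card = Pool.Agent.H387R2.Uni.nuT {0, a, b} q := rfl
  rw [h2, ← h1]
  unfold nu
  have h : Tri a b = (({0, a, b} : Finset ℕ).map Nat.castEmbedding).image (fun t => -t) := by
    unfold Tri
    rw [map_insert, map_insert, map_singleton, image_insert, image_insert, image_singleton]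
    simp
  rw [h, image_image]
  apply Pool.Agent.Y843.AC.HL.card_image_eq_of
  intro s _ t _
  simp only [Function.comp]
  constructor
  · intro h
    exact Int.ModEq.neg (h : s ≡ t [ZMOD q])
  · intro h
    have h5 := Int.ModEq.neg (h : -s ≡ -t [ZMOD q])
    rw [neg_neg, neg_neg] at h5
    exact h5

theorem tri_card {a b : ℕ} (ha : 0 < a) (hab : a < b) : (Tri a b).card = 3 := by
  unfold Tri
  rw [card_eq_three]
  exact ⟨0, -(a : ℤ), -(b : ℤ), by omega, by omega, by omega, rfl⟩

theorem sing_tri {a b : ℕ} (ha : 0 < a) (hab : a < b) : Sing (Tri a b) = S a b := by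
  unfold Sing S loc
  simp only [nu_tri, tri_card ha hab]

/-- The functions `S a b` and `pi3 x a b` are the singular series of `{0, a, b}` and `π₃(x, a, b)`.
(1) For all `η > 0` and all `M`, `m`, `k` there are `c > 0` and `B` such that for all large `x`, all good pairs
`(a_1, b_1), …, (a_M, b_M)` and all `D` between `log ^ B x` and `x` at least `c D ^ m` vectors `d` with entries in
`[1, D]` have the following property. For all sets `F` of vectors with entries in `{0, ..., k - 1}` which contain the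
vector `0` and for all `i`, the set `T' = {0, -a_i, -b_i} + {∑ f_l d_l : f ∈ F}` consists of `3 |F|` integers and misses
a class modulo every prime, and for at least `c 𝔖(T') x / log ^ (3 |F|) x` elements `p` of `Triples x a_i b_i` all the
`p + ∑ f_l d_l`, `f ∈ F`, are in `Triples x a_i b_i`.
(2) For every `η < 1` there is `κ > 0` such that for all large `x` at least `κ log ^ 4 x` of the pairs `a, b ≤ log ^ 2 x`
are good. -/
theorem result :
    (∀ η : ℝ, 0 < η → ∀ M m k : ℕ, ∃ c : ℝ, 0 < c ∧ ∃ B x₀ : ℕ, ∀ x : ℕ, x₀ ≤ x → ∀ a b : Fin M → ℕ,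
      (∀ i, Good η x (a i) (b i)) → ∀ D : ℕ, Real.log x ^ B ≤ D → D ≤ x →
      ∃ G : Finset (Fin m → ℕ), (∀ d ∈ G, ∀ j, 1 ≤ d j ∧ d j ≤ D) ∧ c * (D : ℝ) ^ m ≤ G.card ∧
        ∀ d ∈ G, ∀ F : Finset (Fin m → ℕ), (∀ f ∈ F, ∀ j, f j < k) → (fun _ => 0) ∈ F → ∀ i,
          (sumSet (Tri (a i) (b i)) d F).card = 3 * F.card ∧
          (∀ q : ℕ, q.Prime → nu (sumSet (Tri (a i) (b i)) d F) q < q) ∧
          c * (Sing (sumSet (Tri (a i) (b i)) d F) * (x / Real.log x ^ (3 * F.card))) ≤
            (((Triples x (a i) (b i)).filter (fun p => ∀ f ∈ F, p + ∑ j, f j * d j ∈ Triples x (a i) (b i))).card :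
              ℝ)) ∧
    (∀ η : ℝ, 0 < η → η < 1 → ∃ κ : ℝ, 0 < κ ∧ ∃ x₀ : ℕ, ∀ x : ℕ, x₀ ≤ x → ∃ W : Finset (ℕ × ℕ),
      (∀ u ∈ W, Good η x u.1 u.2 ∧ (u.2 : ℝ) ≤ Real.log x ^ 2) ∧ κ * Real.log x ^ 4 ≤ (W.card : ℝ)) := by
  constructor
  · intro η hη M m k
    obtain ⟨c, hc, B, x₀, h⟩ := Pool.Agent.X26.MC.tupM M m k (fun _ => 3) 1 le_rfl (θ := 1) (δ := η) one_pos hη
    refine ⟨c, hc, B, x₀, fun x hx a b hab D hD hDx => ?_⟩
    have hadm : ∀ i, Pool.Agent.Y843.AC.HL.Tup 3 x (Tri (a i) (b i)) := by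
      intro i
      obtain ⟨he, he', h2, hlt, hbx, hS, -⟩ := hab i
      refine ⟨tri_card (by omega) hlt, ?_, ?_⟩
      · have h3 : Sing (Tri (a i) (b i)) ≠ 0 := by rw [sing_tri (by omega) hlt]; exact hS.ne'
        exact Pool.Agent.Results.MP_e87c7d_nt.ProgressionsOfPrimeTuples.adm_of_sing h3
      · intro t ht
        unfold Tri at ht
        rw [mem_insert, mem_insert, mem_singleton] at ht
        rcases ht with rfl | rfl | rfl
        · simp
        · rw [abs_neg, Nat.abs_cast]; exact_mod_cast (hlt.le.trans hbx)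
        · rw [abs_neg, Nat.abs_cast]; exact_mod_cast hbx
    obtain ⟨G, g1, g2, g3⟩ := h x hx (fun i => Tri (a i) (b i)) hadm (fun _ => 0) x D (by rw [Real.rpow_one]) le_rfl
      hD hDx (fun i => Triples x (a i) (b i)) (fun i p hp => by
        unfold Triples at hp
        rw [mem_filter, mem_range] at hp
        have := hp.2.1.pos
        rw [mem_Ioc]
        omega) (fun i p hp => by
        left
        unfold Triples at hp
        rw [mem_filter] at hp
        intro t ht
        unfold Tri at ht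
        rw [mem_insert, mem_insert, mem_singleton] at ht
        rcases ht with rfl | rfl | rfl
        · rw [add_zero, Int.natAbs_natCast]; exact hp.2.1
        · have h3 := hp.2.2.2.pos
          have e : ((p : ℤ) + -(a i : ℤ)).natAbs = p - a i := by omega
          rw [e]
          exact hp.2.2.2
        · have h3 := hp.2.2.1.pos
          have e : ((p : ℤ) + -(b i : ℤ)).natAbs = p - b i := by omega
          rw [e]
          exact hp.2.2.1) (fun i => by
        obtain ⟨he, he', h2, hlt, hbx, hS, hg⟩ := hab i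
        have e : Pool.Agent.Y843.AC.HL.gg (Tri (a i) (b i)) x =
            Sing (Tri (a i) (b i)) / Real.log x ^ (Tri (a i) (b i)).card := rfl
        rw [e, sing_tri (by omega) hlt, (hadm i).card, Triples_card]
        refine le_trans (le_of_eq ?_) hg
        ring)
    refine ⟨G, ?_, g2, fun d hd F hF hF0 i => ?_⟩
    · intro d hd j
      have := g1 hd
      rw [Fintype.mem_piFinset] at this
      exact mem_Icc.1 (this j)
    obtain ⟨k1, k2, k3⟩ := g3 d hd F hF hF0 i
    have e : Pool.Agent.Y843.AC.HL.gg (Pool.Agent.X26.GP.TF (Tri (a i) (b i)) d F) x =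
        Sing (sumSet (Tri (a i) (b i)) d F) /
          Real.log x ^ (Pool.Agent.X26.GP.TF (Tri (a i) (b i)) d F).card := rfl
    rw [e, k1] at k3
    refine ⟨k1, k2, ?_⟩
    have e2 : c * (Sing (sumSet (Tri (a i) (b i)) d F) * (x / Real.log x ^ (3 * F.card))) =
        c * (x * (Sing (sumSet (Tri (a i) (b i)) d F) / Real.log x ^ (3 * F.card))) := by ring
    rw [e2]
    refine le_trans k3 (le_of_eq ?_)
    congr!
  · intro η hη0 hη
    classical
    obtain ⟨⟨κ, hκ, hX⟩, -⟩ := Pool.Agent.Results.MP_1039f5_nt.SharpConstantManyPairs.result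
    obtain ⟨X, hX⟩ := hX (1 - η) (by linarith) (by linarith)
    have hlog := (Real.isLittleO_pow_log_id_atTop (n := 2)).bound (show (0 : ℝ) < 1 by norm_num)
    have h1 := (tendsto_natCast_atTop_atTop (R := ℝ)).eventually (hlog.and (Filter.eventually_ge_atTop (3 : ℝ)))
    rw [Filter.eventually_atTop] at h1
    obtain ⟨x₁, hx₁⟩ := h1
    refine ⟨κ * (1 - η) ^ 2, by have : 0 < 1 - η := by linarith
                                positivity, max x₁ ⌈X⌉₊, fun x hx => ?_⟩
    obtain ⟨h2, h3⟩ := hx₁ x ((le_max_left _ _).trans hx)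
    have hx3 : (0 : ℝ) < x := by linarith
    have hxl : Real.log x ^ 2 ≤ x := by
      rw [id, Real.norm_eq_abs, Real.norm_eq_abs, abs_of_nonneg hx3.le, one_mul] at h2
      exact (le_abs_self _).trans h2
    have hXx : X ≤ x := (Nat.le_ceil X).trans (by exact_mod_cast (le_max_right _ _).trans hx)
    have h4 := hX x hXx
    refine ⟨_, ?_, h4⟩
    intro u hu
    rw [mem_filter, mem_product, mem_Icc, mem_Icc] at hu
    obtain ⟨⟨⟨a1, a2⟩, ⟨b1, b2⟩⟩, a3, a4, a5, a6, a7⟩ := hu
    have a8 : (u.2 : ℝ) ≤ Real.log x ^ 2 := by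
      have h5 := Nat.floor_le (show 0 ≤ Real.log x ^ 2 by positivity)
      have h6 : (u.2 : ℝ) ≤ ⌊Real.log x ^ 2⌋₊ := by exact_mod_cast b2
      linarith
    refine ⟨⟨a3, a4, a1, a5, ?_, a6, ?_⟩, a8⟩
    · exact_mod_cast a8.trans hxl
    · have e : 1 - (1 - η) = η := by ring
      rw [e] at a7
      exact a7

end Pool.Agent.Results.MP_1039f5_nt.CommonPrimePatterns
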