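import Mathlib
import Pool.Agent.X28.MA.Pat2

set_option autoImplicit false

/-!
# Dense sets of shifts: windows whose primes lie in a given set, with the right order of magnitude

Let `m ≥ 0` and `ρ, Λ > 0`. There are `c > 0` and `C` such that for all large `x` and EVERY set `E` of positive
integers `≤ Λ log x` with at least `ρ log x` elements, at least `c (log x)^m` of the `m`-element subsets `B` of `E`
(a positive proportion of all of them) have the following property: `B` is admissible, for at least
`c x / (log x)^m` integers `n ≤ x` all primes of the whole window `(n, n + Λ log x]` lie in `n + E` and the first `m`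
of them are the numbers `n + b`, `b ∈ B`; and all `n + b`, `b ∈ B`, are prime for at most
`C x / (log x)^m` integers `n ≤ x`.

So `n + min B` realises the pattern `B - min B` as consecutive primes with the order of magnitude
`x / (log x)^m` of the Hardy-Littlewood conjecture, with no prime at a shift outside `E`, at a distance of up to
any multiple of the average spacing.

Method: the Poisson weights of the library H361R2.PP (several clusters given by intervals) with an arbitrary set of
shifts instead of a cluster (`Pool.Agent.X28.MA.masterA`: a positive proportion of the integers `n` has many primes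
`n + a`, `a ∈ E`, and no other prime in `n + [1, Λ log x]`), the upper bound sieve and the second moment of the
singular series.
-/

open Finset

namespace Pool.Agent.Results.MP_1039f5_nt.DenseSetsOfShifts

/-- `B` misses a residue class modulo every prime -/
def Admissible (B : Finset ℕ) : Prop := ∀ p : ℕ, p.Prime → ∃ r : ℕ, r < p ∧ ∀ b ∈ B, b % p ≠ r

/-- the `n + b`, `b ∈ B`, are prime; every prime `n + y` with `1 ≤ y ≤ W` has `y ∈ E`, and `y ∈ B` if `y` is at most
some element of `B` -/
def Realises (E B : Finset ℕ) (W : ℝ) (n : ℕ) : Prop :=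
  (∀ b ∈ B, (n + b).Prime) ∧ ∀ y : ℕ, 1 ≤ y → (y : ℝ) ≤ W → (n + y).Prime →
    y ∈ E ∧ ((∃ b ∈ B, y ≤ b) → y ∈ B)

theorem result (m : ℕ) (ρ Λ : ℝ) (hρ : 0 < ρ) (hΛ : 0 < Λ) :
    ∃ c C : ℝ, 0 < c ∧ ∃ x₀ : ℕ, ∀ x : ℕ, x₀ ≤ x → ∀ E : Finset ℕ,
      (∀ a ∈ E, 1 ≤ a ∧ (a : ℝ) ≤ Λ * Real.log x) → ρ * Real.log x ≤ E.card →
      ∃ F : Finset (Finset ℕ), c * (Real.log x) ^ m ≤ F.card ∧
        ∀ B ∈ F, B ⊆ E ∧ B.card = m ∧ Admissible B ∧
          (∃ G : Finset ℕ, c * (x / (Real.log x) ^ m) ≤ G.card ∧
            ∀ n ∈ G, 1 ≤ n ∧ n ≤ x ∧ Realises E B (Λ * Real.log x) n) ∧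
          (((Icc 1 x).filter (fun n => ∀ b ∈ B, (n + b).Prime)).card : ℝ) ≤
            C * (x / (Real.log x) ^ m) :=
  Pool.Agent.X28.MA.dense2 m ρ Λ hρ hΛ

end Pool.Agent.Results.MP_1039f5_nt.DenseSetsOfShifts
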