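import Mathlib
import Pool.Agent.X26.TY.Typ
import Pool.Agent.Results.MP_1039f5_nt.SharpConstantManyPairs
import Pool.Agent.Results.MP_e87c7d_nt.ProgressionsOfPrimeTuples

/-!
# Prime triples `p, p - a, p - b`: almost all of them are centres of the expected number of patterns, uniformly

Let `0 < a < b ≤ x` be arbitrary with positive singular series `𝔖 = 𝔖(a, b)` and let `S` be an ARBITRARY set of prime
triples `(p, p - a, p - b)` with `p` in an arbitrary interval of length `X ≥ x ^ θ` in `[1, x]`. All but at most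
`ε 𝔖 X / log ^ 3 x` elements `p` of `S` are the centres of at least `c D ^ m (𝔖 / log ^ 3 x) ^ ((2K + 1) ^ m - 1)`
patterns in `S`: for so many vectors `d ∈ [1, D] ^ m` all the `p + ∑ g_i d_i`, `|g_i| ≤ K`, belong to `S`. This is the
order of magnitude of the number of the patterns which is expected if `S` consists of all the prime triples; `D` is any
number between a power of `log x` and `X`, and `c` does not depend on `x`, `a`, `b`, the interval, `D` and `S`.
-/

set_option autoImplicit false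

namespace Pool.Agent.Results.MP_1039f5_nt.TypicalTriples

open Finset
open Pool.Agent.Results.MP_1039f5_nt.SharpConstantManyPairs (S)

/-- `p`, `p - a` and `p - b` are primes -/
def Triple (a b p : ℕ) : Prop := p.Prime ∧ (p - a).Prime ∧ (p - b).Prime

/-- `p` is the centre of the pattern in `A` given by `d`: all the `p + ∑ g_i d_i`, `|g_i| ≤ K`, belong to `A` -/
def Centre {m : ℕ} (K : ℕ) (A : Finset ℕ) (p : ℕ) (d : Fin m → ℕ) : Prop :=
  ∀ g : Fin m → ℤ, (∀ i, |g i| ≤ K) → ∃ s ∈ A, (s : ℤ) = p + ∑ i, g i * (d i : ℤ)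

open Classical in
/-- the number of the vectors `d` with entries in `[1, D]` for which `p` is the centre of the pattern in `A` -/
noncomputable def patterns (m K D : ℕ) (A : Finset ℕ) (p : ℕ) : ℕ :=
  ((Fintype.piFinset (fun _ : Fin m => Icc 1 D)).filter (fun d => Centre K A p d)).card

/-- the shifts of the triple `p, p - a, p - b` -/
def Tri (a b : ℕ) : Finset ℤ := {0, -(a : ℤ), -(b : ℤ)}

theorem nu_tri (a b q : ℕ) : Pool.Agent.Y843.AC.HL.nu (Tri a b) q =
    (({0, a, b} : Finset ℕ).image (fun n => n % q)).card := by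
  have h1 : Pool.Agent.Y843.AC.HL.nu (({0, a, b} : Finset ℕ).map Nat.castEmbedding) q =
      Pool.Agent.H387R2.Uni.nuT {0, a, b} q :=
    Pool.Agent.Results.MP_e87c7d_nt.ProgressionsOfPrimeTuples.nu_nat {0, a, b}
  have h2 : (({0, a, b} : Finset ℕ).image (fun n => n % q)).card = Pool.Agent.H387R2.Uni.nuT {0, a, b} q := rfl
  rw [h2, ← h1]
  unfold Pool.Agent.Y843.AC.HL.nu
  have h : Tri a b = (({0, a, b} : Finset ℕ).map Nat.castEmbedding).image (fun t => -t) := by
    unfold Tri
    rw [map_insert, map_insert, map_singleton, image_insert, image_insert, image_singleton]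
    simp
  rw [h, image_image]
  apply Pool.Agent.Y843.AC.HL.card_image_eq_of
  intro s _ t _
  simp only [Function.comp]
  constructor
  · intro h
    exact Int.ModEq.neg (h : s ≡ t [ZMOD q])
  · intro h
    have h5 := Int.ModEq.neg (h : -s ≡ -t [ZMOD q])
    rw [neg_neg, neg_neg] at h5
    exact h5

theorem tri_card {a b : ℕ} (ha : 0 < a) (hab : a < b) : (Tri a b).card = 3 := by
  unfold Tri
  rw [card_eq_three]
  exact ⟨0, -(a : ℤ), -(b : ℤ), by omega, by omega, by omega, rfl⟩

theorem sing_tri {a b : ℕ} (ha : 0 < a) (hab : a < b) : Pool.Agent.Y843.AC.HL.Sing (Tri a b) = S a b := by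
  unfold Pool.Agent.Y843.AC.HL.Sing S Pool.Agent.Y843.AC.HL.loc
  simp only [nu_tri, tri_card ha hab]

open Classical in
/-- For all `m`, `K`, `θ > 0`, `ε > 0` there are `c > 0` and `B` such that for all large `x`, all `0 < a < b ≤ x` with
`𝔖(a, b) ≠ 0`, all intervals `(y, y + X]` with `x ^ θ ≤ X ≤ x`, all `D` with `log ^ B x ≤ D ≤ X` and ALL sets `A` of
prime triples `p` in the interval: the number of the `p ∈ A` which are the centres of fewer than
`c D ^ m (𝔖(a, b) / log ^ 3 x) ^ ((2 K + 1) ^ m - 1)` patterns in `A` is at most `ε 𝔖(a, b) X / log ^ 3 x`. -/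
theorem result (m K : ℕ) (θ ε : ℝ) (hθ : 0 < θ) (hε : 0 < ε) : ∃ c : ℝ, 0 < c ∧ ∃ B x₀ : ℕ, ∀ x : ℕ, x₀ ≤ x →
    ∀ a b : ℕ, 0 < a → a < b → b ≤ x → S a b ≠ 0 → ∀ y X D : ℕ, (x : ℝ) ^ θ ≤ X → X ≤ x →
    Real.log x ^ B ≤ D → D ≤ X → ∀ A : Finset ℕ, (∀ p ∈ A, y < p ∧ p ≤ y + X ∧ Triple a b p) →
    ((A.filter (fun p => (patterns m K D A p : ℝ) <
      c * ((D : ℝ) ^ m * (S a b / Real.log x ^ 3) ^ ((2 * K + 1) ^ m - 1)))).card : ℝ) ≤
        ε * (S a b * (X / Real.log x ^ 3)) := by
  obtain ⟨c, hc, B, x₀, h⟩ := Pool.Agent.X26.TY.typ m K 3 1 le_rfl hθ hε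
  refine ⟨c, hc, B, x₀, fun x hx a b ha hab hbx hS y X D hX hXx hBD hDX A hA => ?_⟩
  have htup : Pool.Agent.Y843.AC.HL.Tup 3 x (Tri a b) := by
    refine ⟨tri_card ha hab, ?_, ?_⟩
    · have h3 : Pool.Agent.Y843.AC.HL.Sing (Tri a b) ≠ 0 := by rw [sing_tri ha hab]; exact hS
      exact Pool.Agent.Results.MP_e87c7d_nt.ProgressionsOfPrimeTuples.adm_of_sing h3
    · intro t ht
      unfold Tri at ht
      rw [mem_insert, mem_insert, mem_singleton] at ht
      rcases ht with rfl | rfl | rfl
      · simp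
      · rw [abs_neg, Nat.abs_cast]; exact_mod_cast (hab.le.trans hbx)
      · rw [abs_neg, Nat.abs_cast]; exact_mod_cast hbx
  have h1 := h x hx (Tri a b) htup y X D hX hXx hBD hDX A (fun p hp => by
    rw [mem_Ioc]
    exact ⟨(hA p hp).1, (hA p hp).2.1⟩) (fun p hp => by
    left
    obtain ⟨-, -, h2, h3, h4⟩ := hA p hp
    intro t ht
    unfold Tri at ht
    rw [mem_insert, mem_insert, mem_singleton] at ht
    rcases ht with rfl | rfl | rfl
    · rw [add_zero, Int.natAbs_natCast]; exact h2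
    · have h5 := h3.pos
      have e : ((p : ℤ) + -(a : ℤ)).natAbs = p - a := by omega
      rw [e]
      exact h3
    · have h5 := h4.pos
      have e : ((p : ℤ) + -(b : ℤ)).natAbs = p - b := by omega
      rw [e]
      exact h4)
  have e : Pool.Agent.Y843.AC.HL.gg (Tri a b) x =
      Pool.Agent.Y843.AC.HL.Sing (Tri a b) / Real.log x ^ (Tri a b).card := rfl
  rw [e, sing_tri ha hab, tri_card ha hab] at h1
  refine h1.trans (le_of_eq ?_)
  ring

end Pool.Agent.Results.MP_1039f5_nt.TypicalTriples
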